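import Pool.Agent.L7h89.NH.Stm

/-!
Project NH, part AFA.
-/

set_option linter.all false
set_option autoImplicit false

namespace Pool.Agent.L7h65.NH

open Polynomial Finset
open Pool.Agent.L7h89.NH
open scoped Classical

section

variable {F : Type} [Field F] [Fintype F]

/-- the product of the linear forms of all points -/
noncomputable def G (S : Finset (F × F)) (x : F × F) : F[X] :=
  ∏ s ∈ S.erase x, (C (s.1 - x.1) * X - C (s.2 - x.2))

/-- the slope -/
noncomputable def sl (x s : F × F) : F := (s.2 - x.2) / (s.1 - x.1)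

/-- the slopes of the lines through x -/
noncomputable def Mx (S : Finset (F × F)) (x : F × F) : Finset F :=
  (S.filter (fun s => s.1 ≠ x.1)).image (sl x)

/-- the leading coefficient -/
noncomputable def ux (S : Finset (F × F)) (x : F × F) : F :=
  (∏ s ∈ (fib S x.1).erase x, (x.2 - s.2)) * ∏ s ∈ S.filter (fun s => s.1 ≠ x.1), (s.1 - x.1)

/-- the quotient -/
noncomputable def fx (S : Finset (F × F)) (x : F × F) : F[X] :=
  C (ux S x)⁻¹ * ∏ m ∈ (Mx S x)ᶜ, (X - C m)

lemma sl_inj {S : Finset (F × F)} (hS : NoThree S) {x : F × F} (hx : x ∈ S) :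
    Set.InjOn (sl x) (S.filter (fun s => s.1 ≠ x.1) : Finset (F × F)) := by
  intro s hs t ht h
  rw [mem_coe, mem_filter] at hs ht
  by_contra hne
  have h1 := hS x hx s hs.1 t ht.1 (fun h => hs.2 h.symm) (fun h => ht.2 (by rw [h]))
    (fun h => hne h.symm)
  apply h1
  unfold sl at h
  rw [div_eq_div_iff (sub_ne_zero.2 hs.2) (sub_ne_zero.2 ht.2)] at h
  exact h.symm

lemma ux_ne_zero (S : Finset (F × F)) (x : F × F) : ux S x ≠ 0 := by
  unfold ux
  refine mul_ne_zero (prod_ne_zero_iff.2 fun s hs => ?_) (prod_ne_zero_iff.2 fun s hs => ?_)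
  · rw [mem_erase] at hs
    unfold fib at hs
    rw [mem_filter] at hs
    intro h
    exact hs.1 (Prod.ext hs.2.2 (sub_eq_zero.1 h).symm)
  · exact sub_ne_zero.2 (mem_filter.1 hs).2

lemma G_eq {S : Finset (F × F)} (hS : NoThree S) {x : F × F} (hx : x ∈ S) :
    G S x = C (ux S x) * ∏ m ∈ Mx S x, (X - C m) := by
  unfold G
  rw [← prod_filter_mul_prod_filter_not (S.erase x) (fun s => s.1 = x.1)]
  have e1 : (S.erase x).filter (fun s => s.1 = x.1) = (fib S x.1).erase x := by
    unfold fib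
    ext s
    simp only [mem_filter, mem_erase]
    tauto
  have e2 : (S.erase x).filter (fun s => ¬ s.1 = x.1) = S.filter (fun s => s.1 ≠ x.1) := by
    ext s
    simp only [mem_filter, mem_erase, ne_eq]
    constructor
    · rintro ⟨⟨_, h1⟩, h2⟩
      exact ⟨h1, h2⟩
    · rintro ⟨h1, h2⟩
      exact ⟨⟨fun h => h2 (by rw [h]), h1⟩, h2⟩
  rw [e1, e2]
  have e3 : ∏ s ∈ (fib S x.1).erase x, (C (s.1 - x.1) * X - C (s.2 - x.2) : F[X]) =
      C (∏ s ∈ (fib S x.1).erase x, (x.2 - s.2)) := by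
    rw [map_prod]
    refine prod_congr rfl fun s hs => ?_
    have h1 : s.1 = x.1 := by
      rw [mem_erase] at hs
      unfold fib at hs
      exact (mem_filter.1 hs.2).2
    rw [h1, sub_self, C_0, zero_mul, zero_sub, ← C_neg, neg_sub]
  have e4 : ∏ s ∈ S.filter (fun s => s.1 ≠ x.1), (C (s.1 - x.1) * X - C (s.2 - x.2) : F[X]) =
      C (∏ s ∈ S.filter (fun s => s.1 ≠ x.1), (s.1 - x.1)) * ∏ m ∈ Mx S x, (X - C m) := by
    unfold Mx
    rw [prod_image (sl_inj hS hx), map_prod, ← prod_mul_distrib]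
    refine prod_congr rfl fun s hs => ?_
    have h1 : s.1 - x.1 ≠ 0 := sub_ne_zero.2 (mem_filter.1 hs).2
    rw [mul_sub, ← C_mul]
    unfold sl
    rw [mul_div_cancel₀ _ h1]
  rw [e3, e4, ← mul_assoc, ← C_mul]
  rfl

lemma G_mul_f {S : Finset (F × F)} (hS : NoThree S) {x : F × F} (hx : x ∈ S) :
    G S x * fx S x = ∏ m : F, (X - C m) := by
  rw [G_eq hS hx]
  unfold fx
  have h1 : (C (ux S x) : F[X]) * C (ux S x)⁻¹ = 1 := by
    rw [← C_mul, mul_inv_cancel₀ (ux_ne_zero S x), C_1]
  rw [← prod_mul_prod_compl (Mx S x) (fun m => (X - C m : F[X]))]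
  calc _ = (C (ux S x) * C (ux S x)⁻¹) * ((∏ m ∈ Mx S x, (X - C m)) *
        ∏ m ∈ (Mx S x)ᶜ, (X - C m)) := by ring
    _ = _ := by rw [h1, one_mul]

lemma card_Mx {S : Finset (F × F)} (hS : NoThree S) {x : F × F} (hx : x ∈ S)
    (hc : S.card = Fintype.card F + 1) : (fib S x.1).card + (Mx S x).card = Fintype.card F + 1 := by
  unfold Mx fib
  rw [card_image_of_injOn (sl_inj hS hx), ← hc]
  exact card_filter_add_card_filter_not (s := S) (fun s => s.1 = x.1)

lemma natDegree_fx {S : Finset (F × F)} (hS : NoThree S) {x : F × F} (hx : x ∈ S)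
    (hc : S.card = Fintype.card F + 1) : (fx S x).natDegree + 1 = (fib S x.1).card := by
  unfold fx
  rw [natDegree_C_mul (inv_ne_zero (ux_ne_zero S x)),
    natDegree_prod_of_monic _ _ fun m _ => monic_X_sub_C m]
  simp only [natDegree_X_sub_C, sum_const, smul_eq_mul, mul_one]
  rw [card_compl]
  have h1 := card_Mx hS hx hc
  have h2 : 1 ≤ (fib S x.1).card := by
    refine card_pos.2 ⟨x, ?_⟩
    unfold fib
    exact mem_filter.2 ⟨hx, rfl⟩
  have h3 : (Mx S x).card ≤ Fintype.card F := card_le_univ _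
  omega

lemma coeff_fx {S : Finset (F × F)} (hS : NoThree S) {x : F × F} (hx : x ∈ S)
    (hc : S.card = Fintype.card F + 1) (h3 : (fib S x.1).card ≤ 3) :
    (fx S x).coeff 2 = lead S x := by
  have hd := natDegree_fx hS hx hc
  unfold lead
  by_cases h : (fib S x.1).card = 3
  · rw [if_pos h]
    have h2 : (fx S x).natDegree = 2 := by omega
    have h4 : (fx S x).coeff 2 = (fx S x).leadingCoeff := by
      unfold leadingCoeff
      rw [h2]
    rw [h4]
    unfold fx
    have hm : (∏ m ∈ (Mx S x)ᶜ, (X - C m : F[X])).Monic :=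
      monic_prod_of_monic _ _ fun m _ => monic_X_sub_C m
    rw [leadingCoeff_mul, leadingCoeff_C, hm.leadingCoeff, mul_one, one_div]
    rfl
  · rw [if_neg h]
    exact coeff_eq_zero_of_natDegree_lt (by omega)

lemma der_G {S : Finset (F × F)} {x y : F × F} (hy : y ∈ S) (hne : y ≠ x)
    (m0 : F) (h : m0 * (y.1 - x.1) = y.2 - x.2) :
    (derivative (G S x)).eval m0 =
      (y.1 - x.1) * ∏ s ∈ (S.erase x).erase y, (m0 * (s.1 - x.1) - (s.2 - x.2)) := by
  unfold G
  rw [← mul_prod_erase (S.erase x) (fun s => (C (s.1 - x.1) * X - C (s.2 - x.2) : F[X]))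
    (mem_erase.2 ⟨hne, hy⟩), derivative_mul, eval_add, eval_mul, eval_mul]
  have e1 : (C (y.1 - x.1) * X - C (y.2 - x.2) : F[X]).eval m0 = 0 := by
    simp only [eval_sub, eval_mul, eval_C, eval_X]
    rw [mul_comm, h, sub_self]
  have e2 : (derivative (C (y.1 - x.1) * X - C (y.2 - x.2) : F[X])).eval m0 = y.1 - x.1 := by
    simp
  rw [e1, e2, zero_mul, add_zero, eval_prod]
  congr 1
  refine prod_congr rfl fun s _ => ?_
  simp only [eval_sub, eval_mul, eval_C, eval_X]
  ring

end

theorem s_AFA : S_AFA := by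
  intro F _ _ S hc h3 hS
  refine ⟨fun x => (fx S x).coeff 1, fun x => (fx S x).coeff 0, fun x hx y hy hxy => ?_⟩
  have hxy0 : y.1 - x.1 ≠ 0 := sub_ne_zero.2 fun h => hxy h.symm
  have hne : y ≠ x := fun h => hxy (by rw [h])
  set m0 : F := (y.2 - x.2) / (y.1 - x.1) with hm0
  have hm : m0 * (y.1 - x.1) = y.2 - x.2 := div_mul_cancel₀ _ hxy0
  have hm' : m0 * (x.1 - y.1) = x.2 - y.2 := by linear_combination -hm
  have d1 := der_G (S := S) hy hne m0 hm
  have d2 := der_G (S := S) hx hne.symm m0 hm'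
  have hP : (derivative (G S x)).eval m0 * (fx S x).eval m0 =
      (derivative (G S y)).eval m0 * (fx S y).eval m0 := by
    have z1 : (G S x).eval m0 = 0 := by
      unfold G
      rw [eval_prod]
      refine prod_eq_zero (mem_erase.2 ⟨hne, hy⟩) ?_
      simp only [eval_sub, eval_mul, eval_C, eval_X]
      rw [mul_comm, hm, sub_self]
    have z2 : (G S y).eval m0 = 0 := by
      unfold G
      rw [eval_prod]
      refine prod_eq_zero (mem_erase.2 ⟨hne.symm, hx⟩) ?_
      simp only [eval_sub, eval_mul, eval_C, eval_X]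
      rw [mul_comm, hm', sub_self]
    have h1 := congrArg (fun P : F[X] => (derivative P).eval m0)
      ((G_mul_f hS hx).trans (G_mul_f hS hy).symm)
    simp only [derivative_mul, eval_add, eval_mul, z1, z2, zero_mul, add_zero] at h1
    exact h1
  rw [d1, d2] at hP
  have hpr : ∏ s ∈ (S.erase y).erase x, (m0 * (s.1 - y.1) - (s.2 - y.2)) =
      ∏ s ∈ (S.erase x).erase y, (m0 * (s.1 - x.1) - (s.2 - x.2)) := by
    rw [erase_right_comm]
    refine prod_congr rfl fun s _ => ?_
    linear_combination -hm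
  rw [hpr] at hP
  have hpn : ∏ s ∈ (S.erase x).erase y, (m0 * (s.1 - x.1) - (s.2 - x.2)) ≠ 0 := by
    refine prod_ne_zero_iff.2 fun s hs h0 => ?_
    rw [mem_erase, mem_erase] at hs
    apply hS x hx y hy s hs.2.2 hxy hs.2.1 hs.1
    have h1 : s.2 - x.2 = m0 * (s.1 - x.1) := (sub_eq_zero.1 h0).symm
    rw [h1, ← hm]
    ring
  have hsum : (fx S x).eval m0 + (fx S y).eval m0 = 0 := by
    have h1 : ((y.1 - x.1) * ∏ s ∈ (S.erase x).erase y, (m0 * (s.1 - x.1) - (s.2 - x.2))) *
        ((fx S x).eval m0 + (fx S y).eval m0) = 0 := by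
      linear_combination hP
    exact (mul_eq_zero.1 h1).resolve_left (mul_ne_zero hxy0 hpn)
  have hev : ∀ x ∈ S, (fx S x).eval m0 = (fx S x).coeff 0 + (fx S x).coeff 1 * m0 +
      lead S x * m0 ^ 2 := by
    intro x hx
    have hd := natDegree_fx hS hx hc
    have h4 := h3 x.1
    rw [eval_eq_sum_range' (show (fx S x).natDegree < 3 by omega), sum_range_succ, sum_range_succ,
      sum_range_succ, sum_range_zero, coeff_fx hS hx hc (h3 x.1)]
    ring
  rw [hev x hx, hev y hy] at hsum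
  have e1 : y.2 - x.2 = m0 * (y.1 - x.1) := hm.symm
  rw [e1]
  linear_combination (y.1 - x.1) ^ 2 * hsum

end Pool.Agent.L7h65.NH
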