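import Pool.Agent.L7h89.NH.Stm

/-!
Project NH, part AFE.
-/

set_option linter.all false
set_option autoImplicit false

namespace Pool.Agent.L7h65.NH

open Polynomial Finset
open Pool.Agent.L7h89.NH
open scoped Classical

lemma lead_B {F : Type} [Field F] [Fintype F] {S : Finset (F × F)} {B : Finset F}
    {b c : F → F} (h : Special S B b c) {a : F} (ha : a ∈ B) (eps : F)
    (he : eps ∈ ({0, 1, -1} : Set F)) :
    (a, b a + eps * c a) ∈ S ∧ lead S (a, b a + eps * c a) = Al S c a := by
  obtain ⟨h3, hc, hB2, hB5, hB, hnB, hN⟩ := h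
  obtain ⟨hca, hf⟩ := hB a ha
  have h2 : (2 : F) = -1 := by linear_combination h3
  have h20 : (2 : F) ≠ 0 := by
    rw [h2]
    exact neg_ne_zero.2 one_ne_zero
  have n1 : ((a, b a) : F × F) ≠ (a, b a + c a) := by
    intro h
    have := (Prod.mk.inj h).2
    exact hca (by linear_combination -this)
  have n2 : ((a, b a) : F × F) ≠ (a, b a - c a) := by
    intro h
    have := (Prod.mk.inj h).2
    exact hca (by linear_combination this)
  have n3 : ((a, b a + c a) : F × F) ≠ (a, b a - c a) := by
    intro h
    have := (Prod.mk.inj h).2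
    have h5 : 2 * c a = 0 := by linear_combination this
    exact (mul_ne_zero h20 hca) h5
  have hcard : (fib S a).card = 3 := by
    rw [hf, card_insert_of_notMem, card_insert_of_notMem, card_singleton]
    · simpa using n3
    · simp only [mem_insert, mem_singleton, not_or]
      exact ⟨n1, n2⟩
  have hmem : ∀ p ∈ fib S a, p ∈ S := fun p hp => (mem_filter.1 hp).1
  have key : ∀ p ∈ fib S a, p.1 = a → (∏ s ∈ (fib S a).erase p, (p.2 - s.2)) = -(c a ^ 2) →
      lead S p = Al S c a := by
    intro p hp hp1 hpr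
    unfold lead Al
    rw [hp1, if_pos hcard, hpr]
    rw [neg_mul, div_neg, neg_div]
  have hc2 : ∀ x : F, 2 * x ^ 2 = -(x ^ 2) := by
    intro x
    rw [h2]
    ring
  rcases he with rfl | rfl | rfl
  · have e : ((a, b a + 0 * c a) : F × F) = (a, b a) := by rw [zero_mul, add_zero]
    rw [e]
    have hp : (a, b a) ∈ fib S a := by rw [hf]; simp
    refine ⟨hmem _ hp, key _ hp rfl ?_⟩
    have e1 : (fib S a).erase (a, b a) = {(a, b a + c a), (a, b a - c a)} := by
      rw [hf]
      rw [erase_insert]
      simp only [mem_insert, mem_singleton, not_or]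
      exact ⟨n1, n2⟩
    rw [e1, prod_insert (by simpa using n3), prod_singleton]
    ring
  · have e : ((a, b a + 1 * c a) : F × F) = (a, b a + c a) := by rw [one_mul]
    rw [e]
    have hp : (a, b a + c a) ∈ fib S a := by rw [hf]; simp
    refine ⟨hmem _ hp, key _ hp rfl ?_⟩
    have e1 : (fib S a).erase (a, b a + c a) = {(a, b a), (a, b a - c a)} := by
      rw [hf, insert_comm, erase_insert]
      simp only [mem_insert, mem_singleton, not_or]
      exact ⟨n1.symm, n3⟩
    rw [e1, prod_insert (by simpa using n2), prod_singleton]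
    linear_combination hc2 (c a)
  · have e : ((a, b a + -1 * c a) : F × F) = (a, b a - c a) := by
      rw [neg_one_mul, ← sub_eq_add_neg]
    rw [e]
    have hp : (a, b a - c a) ∈ fib S a := by rw [hf]; simp
    refine ⟨hmem _ hp, key _ hp rfl ?_⟩
    have e0 : ({(a, b a), (a, b a + c a), (a, b a - c a)} : Finset (F × F)) =
        {(a, b a - c a), (a, b a), (a, b a + c a)} := by
      ext s
      simp only [mem_insert, mem_singleton]
      tauto
    have e1 : (fib S a).erase (a, b a - c a) = {(a, b a), (a, b a + c a)} := by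
      rw [hf, e0, erase_insert]
      simp only [mem_insert, mem_singleton, not_or]
      exact ⟨n2.symm, n3.symm⟩
    rw [e1, prod_insert (by simpa using n1), prod_singleton]
    linear_combination hc2 (c a)

theorem s_AFE (hA : S_AFA) (hB : S_AFB) (hC : S_AFC) : S_AFE := by
  intro F _ _ S B b c hSp
  have hSp' := hSp
  obtain ⟨h3, hc, hB2, hB5, hBB, hnB, hN⟩ := hSp'
  have hfib : ∀ a, (fib S a).card ≤ 3 := by
    intro a
    by_cases ha : a ∈ B
    · rw [(hBB a ha).2]
      exact card_le_three
    · exact (hnB a ha).trans (by norm_num)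
  obtain ⟨bet, gam, hbg⟩ := hA F S hc hfib hN
  have hlead := fun (a : F) (ha : a ∈ B) (eps : F) (he : eps ∈ ({0, 1, -1} : Set F)) =>
    lead_B hSp ha eps he
  have key : ∀ a ∈ B, ∀ a' ∈ B, a ≠ a' →
      bet (a, b a + 0 * c a) + bet (a, b a + 1 * c a) + bet (a, b a + -1 * c a) = 0 ∧
      (Al S c a + Al S c a') * (c a * c a') +
        ((bet (a, b a + -1 * c a) - bet (a, b a + 1 * c a)) * c a' -
          (bet (a', b a' + -1 * c a') - bet (a', b a' + 1 * c a')) * c a) * (a' - a) = 0 ∧
      (Al S c a + Al S c a') * c a ^ 2 -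
        (bet (a, b a + -1 * c a) - bet (a, b a + 1 * c a)) * c a * (a' - a) -
        (gam (a, b a + 0 * c a) + gam (a, b a + 1 * c a) + gam (a, b a + -1 * c a)) *
          (a' - a) ^ 2 = 0 := by
    intro a ha a' ha' hne
    refine hB F h3 (Al S c a) (Al S c a') (c a) (c a') (a' - a) (b a' - b a)
      (fun eps => bet (a, b a + eps * c a)) (fun del => bet (a', b a' + del * c a'))
      (fun eps => gam (a, b a + eps * c a)) (fun del => gam (a', b a' + del * c a'))
      (hBB a ha).1 (hBB a' ha').1 (sub_ne_zero.2 hne.symm) ?_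
    intro eps he del hd
    obtain ⟨m1, l1⟩ := hlead a ha eps he
    obtain ⟨m2, l2⟩ := hlead a' ha' del hd
    have h1 := hbg _ m1 _ m2 hne
    rw [l1, l2] at h1
    simp only at h1
    linear_combination h1
  refine ⟨fun a => (bet (a, b a + -1 * c a) - bet (a, b a + 1 * c a)) * c a,
    fun a => gam (a, b a + 0 * c a) + gam (a, b a + 1 * c a) + gam (a, b a + -1 * c a),
    ?_, ?_, ?_, ?_⟩
  · intro a ha
    unfold Al
    refine div_ne_zero (neg_ne_zero.2 one_ne_zero) (mul_ne_zero (pow_ne_zero _ (hBB a ha).1) ?_)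
    exact prod_ne_zero_iff.2 fun s hs => sub_ne_zero.2 (mem_filter.1 hs).2
  · intro a ha a' ha' hne
    have h1 := (key a ha a' ha' hne).2.1
    have c1 := (hBB a ha).1
    have c2 := (hBB a' ha').1
    beta_reduce
    generalize bet (a, b a + -1 * c a) - bet (a, b a + 1 * c a) = w1 at h1 ⊢
    generalize bet (a', b a' + -1 * c a') - bet (a', b a' + 1 * c a') = w2 at h1 ⊢
    field_simp
    linear_combination h1
  · intro a ha a' ha' hne
    exact (key a ha a' ha' hne).2.2
  · intro a ha s hs hsB
    obtain ⟨a', ha', hne⟩ : ∃ a' ∈ B, a' ≠ a :=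
      Finset.exists_mem_ne (by omega : 1 < B.card) a
    have h0 := (key a ha a' ha' hne.symm).1
    have hls : lead S s = 0 := by
      unfold lead
      rw [if_neg]
      have := hnB s.1 hsB
      omega
    refine hC F h3 (Al S c a) (c a) (s.1 - a) (s.2 - b a) (bet s) (gam s)
      (fun eps => bet (a, b a + eps * c a)) (fun eps => gam (a, b a + eps * c a)) ?_ h0
    intro eps he
    obtain ⟨m1, l1⟩ := hlead a ha eps he
    have h1 := hbg _ m1 s hs (fun h : a = s.1 => hsB (h ▸ ha))
    rw [l1, hls] at h1
    simp only at h1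
    linear_combination h1

end Pool.Agent.L7h65.NH
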