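import Pool.Agent.L7h89.NH.Stm

/-!
Project NH, part NCV.
-/

set_option linter.all false
set_option autoImplicit false

namespace Pool.Agent.L7h65.NH

open Finset
open Pool.Agent.L7h89.NH
open scoped LinearAlgebra.Projectivization Matrix Classical

section psi

variable {F : Type} [Field F]

lemma psi_add (A B : Multiset (Pt F)) (l : Pt F) : psi (A + B) l = psi A l + psi B l := by
  unfold psi
  rw [Multiset.filter_add, Multiset.card_add]

lemma psi_nsmul (n : ℕ) (a l : Pt F) :
    psi (n • ({a} : Multiset (Pt F))) l = n * (if On a l then 1 else 0) := by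
  induction n with
  | zero => simp [psi]
  | succ n ih =>
    rw [succ_nsmul, psi_add, ih, add_mul, one_mul]
    congr 1
    unfold psi
    rw [Multiset.filter_singleton]
    split_ifs <;> simp

lemma psi_sum {X : Type} (s : Finset X) (f : X → Multiset (Pt F)) (l : Pt F) :
    psi (∑ x ∈ s, f x) l = ∑ x ∈ s, psi (f x) l := by
  induction s using Finset.induction_on with
  | empty => simp [psi]
  | insert a s ha ih => rw [sum_insert ha, sum_insert ha, psi_add, ih]

end psi

lemma ch2 (j : ℕ) (hj : 3 ≤ j) : 3 * (j - 2) ≤ 2 * (j - 1).choose 2 + 1 ∧ 1 ≤ (j - 1).choose 2 := by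
  obtain ⟨k, rfl⟩ := Nat.exists_eq_add_of_le hj
  have e1 : 3 + k - 2 = k + 1 := by omega
  have e2 : 3 + k - 1 = k + 2 := by omega
  rw [e1, e2]
  clear e1 e2 hj
  induction k with
  | zero => decide
  | succ k ih =>
    have h1 : (k + 1 + 2).choose 2 = (k + 2) + (k + 2).choose 2 := by
      have h := Nat.choose_succ_succ (k + 2) 1
      rw [Nat.choose_one_right] at h
      exact h
    rw [h1]
    omega

theorem s_NCV (hB : S_BAS) (hK : S_KIL) (hS : S_SHF) (hP : S_POP) : S_NCV := by
  intro F _ _ S hc hncv hle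
  obtain ⟨b1, b2, b3, -, -, -, -⟩ := hB F
  obtain ⟨M, hM, hpop⟩ := hP F S hncv
  have hM3 : 3 ≤ deg S M := (mem_filter.1 hM).2
  obtain ⟨x0, hx0, y1, hy1, hxy⟩ : ∃ x0 ∈ meet S M, ∃ y1 ∈ meet S M, x0 ≠ y1 :=
    Finset.one_lt_card.1 (by unfold deg at hM3; omega)
  have hx0M : On x0 M := (mem_filter.1 hx0).2
  have hy1M : On y1 M := (mem_filter.1 hy1).2
  have hXM : ∀ l : ↥((bad S).erase M), l.1 ≠ M := fun l => (mem_erase.1 l.2).1
  have hXb : ∀ l : ↥((bad S).erase M), 3 ≤ deg S l.1 := fun l =>
    (mem_filter.1 (mem_erase.1 l.2).2).2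
  choose kap hk1 hk2 hk3 using fun l : ↥((bad S).erase M) => b3 M l.1 (hXM l).symm
  have hhall : ∀ y, 2 * (Finset.univ.filter (fun x : ↥((bad S).erase M) => kap x = y)).card ≤
      Fintype.card ↥((bad S).erase M) := by
    intro y
    rw [Fintype.card_coe]
    by_cases hy : On y M
    · refine le_trans (Nat.mul_le_mul_left 2 ?_) (hpop y hy)
      refine card_le_card_of_injOn (fun x => x.1) ?_ ?_
      · intro x hx
        have h1 : kap x = y := (mem_filter.1 hx).2
        refine mem_filter.2 ⟨x.2, ?_⟩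
        rw [← h1]
        exact hk2 x
      · intro x _ x' _ h
        exact Subtype.ext h
    · have h1 : (Finset.univ.filter (fun x : ↥((bad S).erase M) => kap x = y)) = ∅ := by
        refine filter_eq_empty_iff.2 fun x _ h => hy ?_
        rw [← h]
        exact hk1 x
      rw [h1, card_empty, mul_zero]
      exact Nat.zero_le _
  obtain ⟨sig, hsig⟩ := hS ↥((bad S).erase M) (Pt F) kap hhall
  have hne : ∀ l : ↥((bad S).erase M), l.1 ≠ (sig l).1 := fun l h =>
    hsig l (congrArg kap (Subtype.ext h.symm))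
  choose T hT1 hT2 hT3 using fun l : ↥((bad S).erase M) => b3 l.1 (sig l).1 (hne l)
  have hTM : ∀ l, ¬ On (T l) M := fun l h =>
    hsig l ((hk3 (sig l) (T l) h (hT2 l)).symm.trans (hk3 l (T l) h (hT1 l)))
  set c : Pt F → ℕ := fun l => (deg S l - 1).choose 2 with hcdef
  set P : Multiset (Pt F) := ((meet S M).erase x0).val + (2 * deg S M - 5) • ({y1} : Multiset (Pt F)) +
    ∑ l : ↥((bad S).erase M), (c l.1 + c (sig l).1) • ({T l} : Multiset (Pt F)) with hPdef
  -- the weight
  have hwt : wt S = c M + ∑ l : ↥((bad S).erase M), c l.1 := by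
    unfold wt
    rw [← sum_subset (subset_univ (bad S)), ← add_sum_erase (bad S) _ hM]
    · congr 1
      exact (Finset.sum_coe_sort ((bad S).erase M) c).symm
    · intro l _ hl
      have h1 : ¬ 3 ≤ deg S l := fun h => hl (mem_filter.2 ⟨mem_univ _, h⟩)
      exact Nat.choose_eq_zero_of_lt (by omega)
  have hsum : ∑ l : ↥((bad S).erase M), (c l.1 + c (sig l).1) =
      2 * ∑ l : ↥((bad S).erase M), c l.1 := by
    rw [sum_add_distrib, Equiv.sum_comp sig (fun l : ↥((bad S).erase M) => c l.1), two_mul]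
  have hcard : P.card = (deg S M - 1) + (2 * deg S M - 5) +
      2 * ∑ l : ↥((bad S).erase M), c l.1 := by
    rw [hPdef, Multiset.card_add, Multiset.card_add, Multiset.card_nsmul, Multiset.card_singleton,
      Multiset.card_sum, ← hsum]
    have e1 : Multiset.card ((meet S M).erase x0).val = deg S M - 1 := card_erase_of_mem hx0
    have e2 : ∀ l : ↥((bad S).erase M), Multiset.card ((c l.1 + c (sig l).1) •
        ({T l} : Multiset (Pt F))) = c l.1 + c (sig l).1 := fun l => by
      rw [Multiset.card_nsmul, Multiset.card_singleton, mul_one]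
    rw [e1, sum_congr rfl fun l _ => e2 l, mul_one]
  have hpsi : ∀ m, psi P m = psi ((meet S M).erase x0).val m +
      (2 * deg S M - 5) * (if On y1 m then 1 else 0) +
      ∑ l : ↥((bad S).erase M), (c l.1 + c (sig l).1) * (if On (T l) m then 1 else 0) := by
    intro m
    rw [hPdef, psi_add, psi_add, psi_nsmul, psi_sum]
    congr 1
    exact sum_congr rfl fun l _ => psi_nsmul _ _ _
  obtain ⟨cM1, cM2⟩ := ch2 (deg S M) hM3
  refine hK F S P M x0 hc ?_ hM3 ?_ ?_ hx0 ?_ ?_
  · rw [hcard]
    rw [hwt] at hle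
    have h1 : c M = (deg S M - 1).choose 2 := rfl
    omega
  · rw [hpsi, if_pos hy1M]
    have e1 : psi ((meet S M).erase x0).val M = deg S M - 1 := by
      have h1 : psi ((meet S M).erase x0).val M = (((meet S M).erase x0).filter
          (fun p => On p M)).card := rfl
      rw [h1, filter_true_of_mem, card_erase_of_mem hx0]
      · rfl
      · intro p hp
        exact (mem_filter.1 (mem_erase.1 hp).2).2
    have e2 : ∑ l : ↥((bad S).erase M), (c l.1 + c (sig l).1) * (if On (T l) M then 1 else 0) = 0 :=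
      sum_eq_zero fun l _ => by rw [if_neg (hTM l), mul_zero]
    rw [e1, e2]
    omega
  · intro m hm hm3
    right
    set l : ↥((bad S).erase M) := ⟨m, mem_erase.2 ⟨hm, mem_filter.2 ⟨mem_univ _, hm3⟩⟩⟩ with hl
    have hsne : l ≠ sig.symm l := by
      intro h
      have h2 : sig l = l := by
        conv_lhs => rw [h]
        exact sig.apply_symm_apply l
      exact hne l (congrArg Subtype.val h2).symm
    rw [hpsi]
    have h1 : ∑ l' ∈ ({l, sig.symm l} : Finset ↥((bad S).erase M)),
        (c l'.1 + c (sig l').1) * (if On (T l') m then 1 else 0) ≤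
        ∑ l' : ↥((bad S).erase M), (c l'.1 + c (sig l').1) * (if On (T l') m then 1 else 0) :=
      sum_le_sum_of_subset (subset_univ _)
    rw [sum_pair hsne, if_pos (hT1 l)] at h1
    have h2 : On (T (sig.symm l)) m := by
      have h3 := hT2 (sig.symm l)
      rw [sig.apply_symm_apply] at h3
      exact h3
    rw [if_pos h2, sig.apply_symm_apply] at h1
    obtain ⟨g1, g2⟩ := ch2 (deg S m) hm3
    obtain ⟨-, g3⟩ := ch2 (deg S (sig l).1) (hXb _)
    obtain ⟨-, g4⟩ := ch2 (deg S (sig.symm l).1) (hXb _)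
    have e1 : c l.1 = (deg S m - 1).choose 2 := rfl
    have e2 : c (sig l).1 = (deg S (sig l).1 - 1).choose 2 := rfl
    have e3 : c (sig.symm l).1 = (deg S (sig.symm l).1 - 1).choose 2 := rfl
    omega
  · intro h
    rw [hPdef, Multiset.mem_add, Multiset.mem_add] at h
    rcases h with (h | h) | h
    · exact (mem_erase.1 (mem_def.2 h)).1 rfl
    · have := Multiset.mem_of_mem_nsmul h
      rw [Multiset.mem_singleton] at this
      exact hxy this
    · rw [Multiset.mem_sum] at h
      obtain ⟨l, _, hl⟩ := h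
      have := Multiset.mem_of_mem_nsmul hl
      rw [Multiset.mem_singleton] at this
      exact hTM l (this ▸ hx0M)
  · intro y hy hyx
    rw [hPdef, Multiset.mem_add, Multiset.mem_add]
    exact Or.inl (Or.inl (mem_def.1 (mem_erase.2 ⟨hyx, hy⟩)))

end Pool.Agent.L7h65.NH
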